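import Mathlib

set_option autoImplicit false

namespace Pool.Agent.Results.MP_26ecb3_co.Disproof

/-- `A` is `s`-spanning: every element is a signed sum of at most `s` terms from `A`. -/
def Spanning {G : Type} [AddCommGroup G] (s : ℕ) (A : Finset G) : Prop :=
  ∀ g : G, ∃ l : G → ℤ, ∑ a ∈ A, |l a| ≤ (s : ℤ) ∧ ∑ a ∈ A, l a • a = g

/-- `φ_±(G, [0,s])`: the least size of an `s`-spanning set. -/
noncomputable def phi (G : Type) [AddCommGroup G] (s : ℕ) : ℕ :=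
  sInf {m | ∃ A : Finset G, A.card = m ∧ Spanning s A}

/-- The set `L` of the problem. -/
def InL (s k : ℕ) : Prop :=
  (s = 2 ∧ k ∈ ({1, 2} : Finset ℕ)) ∨ (s = 3 ∧ k ∈ ({1, 2, 3, 4} : Finset ℕ)) ∨
  (s = 4 ∧ k ∈ ({1, 2, 3, 4, 5, 6, 8} : Finset ℕ)) ∨ (5 ≤ s ∧ k + 4 ≤ 3 * s)

theorem result :
    ¬ ∀ s k : ℕ, 0 < s → 0 < k → phi (ZMod 2 × ZMod (2 * k)) s = 2 → InL s k := by
  intro h
  have h1 := h 5 12 (by norm_num) (by norm_num) (by
    have key : ∀ g : ZMod 2 × ZMod (2 * 12), ∃ x ∈ Finset.Icc (-5 : ℤ) 5, ∃ y ∈ Finset.Icc (-5 : ℤ) 5,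
        |x| + |y| ≤ 5 ∧ x • ((0, 3) : ZMod 2 × ZMod (2 * 12)) + y • (1, 2) = g := by
      decide +kernel
    have hne : ((0, 3) : ZMod 2 × ZMod (2 * 12)) ≠ (1, 2) := by decide
    have two : 2 ∈ {m | ∃ A : Finset (ZMod 2 × ZMod (2 * 12)), A.card = m ∧ Spanning 5 A} := by
      refine ⟨{(0, 3), (1, 2)}, Finset.card_pair hne, fun g => ?_⟩
      obtain ⟨x, -, y, -, h1, h2⟩ := key g
      refine ⟨fun a => if a = (0, 3) then x else y, ?_, ?_⟩
      · rw [Finset.sum_pair hne]; simp only [if_neg hne.symm, if_true]; exact h1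
      · rw [Finset.sum_pair hne]; simp only [if_neg hne.symm, if_true]; exact h2
    apply le_antisymm (Nat.sInf_le two)
    apply le_csInf ⟨_, two⟩
    rintro m ⟨A, rfl, hA⟩
    by_contra hlt
    push Not at hlt
    have key2 : ∀ a : ZMod 2 × ZMod (2 * 12), ∃ g : ZMod 2 × ZMod (2 * 12),
        g ≠ 0 ∧ ∀ x ∈ Finset.Icc (-5 : ℤ) 5, x • a ≠ g := by decide +kernel
    have hc : A.card = 0 ∨ A.card = 1 := by omega
    rcases hc with hc | hc
    · rw [Finset.card_eq_zero] at hc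
      subst hc
      obtain ⟨l, -, hl⟩ := hA (1, 0)
      simp only [Finset.sum_empty] at hl
      exact absurd hl (by decide)
    · obtain ⟨a, rfl⟩ := Finset.card_eq_one.1 hc
      obtain ⟨g, -, hg⟩ := key2 a
      obtain ⟨l, h1, h2⟩ := hA g
      simp only [Finset.sum_singleton] at h1 h2
      exact hg _ (Finset.mem_Icc.2 (abs_le.1 h1)) h2)
  simp [InL] at h1

end Pool.Agent.Results.MP_26ecb3_co.Disproof
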